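import Pool.Agent.Lib.MP_fa837f_gt.TS.Iface

/-!
# PLA0: the area of a polygon as an integral of the lengths of its sections
-/

set_option autoImplicit false

open MeasureTheory Set Filter Topology

namespace Pool.Agent.Lib.MP_fa837f_gt.TS.H63

open Pool.Agent.Lib.MP_fa837f_gt.TS

section

variable {ι : Type}

/-- The upper end of a section. -/
noncomputable def up (s : Finset ι) (hs : s.Nonempty) (α β : ι → ℝ) (z : ℝ) (h : ι → ℝ) : ℝ :=
  s.inf' hs fun j => h j * α j - z * β j

variable (s : Finset ι) (hs : s.Nonempty) (α β : ι → ℝ)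

theorem up_cont (c : ℝ) :
    Continuous fun q : ℝ × (ι → ℝ) => up s hs α β (c * q.1) q.2 := by
  unfold up
  refine Continuous.finset_inf'_apply hs fun j _ => ?_
  fun_prop

theorem up_concave (c : ℝ) :
    ConcaveOn ℝ Set.univ (fun q : ℝ × (ι → ℝ) => up s hs α β (c * q.1) q.2) := by
  refine ⟨convex_univ, ?_⟩
  rintro ⟨z, h⟩ - ⟨z', h'⟩ - a b ha hb hab
  simp only [up, smul_eq_mul, Prod.fst_add, Prod.snd_add, Prod.smul_fst, Prod.smul_snd]
  apply Finset.le_inf'
  intro j hj
  have h1 := Finset.inf'_le (fun j => h j * α j - c * z * β j) hj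
  have h2 := Finset.inf'_le (fun j => h' j * α j - c * z' * β j) hj
  have h3 := mul_le_mul_of_nonneg_left h1 ha
  have h4 := mul_le_mul_of_nonneg_left h2 hb
  simp only [Pi.add_apply, Pi.smul_apply, smul_eq_mul]
  calc _ ≤ a * (h j * α j - c * z * β j) + b * (h' j * α j - c * z' * β j) := add_le_add h3 h4
    _ = _ := by ring

theorem up_congr (z : ℝ) (h h' : ι → ℝ) (H : ∀ j ∈ s, h j = h' j) :
    up s hs α β z h = up s hs α β z h' := by
  unfold up
  exact Finset.inf'_congr hs rfl fun j hj => by rw [H j hj]

theorem le_up (x z : ℝ) (h : ι → ℝ) :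
    x ≤ up s hs α β z h ↔ ∀ j ∈ s, x ≤ h j * α j - z * β j := by
  unfold up
  exact Finset.le_inf'_iff hs _

theorem up_pos (h : ι → ℝ) (h0 : ∀ j, 0 < h j) (hα : ∀ j ∈ s, 0 < α j) :
    0 < up s hs α β 0 h := by
  unfold up
  rw [Finset.lt_inf'_iff]
  intro j hj
  have := mul_pos (h0 j) (hα j hj)
  simpa using this

end

theorem strip_iff {z s G D h : ℝ} (hD : D ≠ 0) :
    |z * G + s * D| ≤ h ↔ (s ≤ h * |D|⁻¹ - z * (G / D) ∧ -s ≤ h * |D|⁻¹ - (-z) * (G / D)) := by
  have e : z * G + s * D = D * (z * (G / D) + s) := by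
    field_simp
  have hD' : 0 < |D| := abs_pos.2 hD
  rw [e, abs_mul, ← le_div_iff₀' hD', abs_le, div_eq_mul_inv]
  constructor
  · rintro ⟨h1, h2⟩
    constructor <;> linarith
  · rintro ⟨h1, h2⟩
    constructor <;> linarith

/-- PLA0. -/
theorem pla0 : Pla0Statement := by
  classical
  intro ι _ v w hvw i
  obtain ⟨⟨i₁, i₂, hi⟩, hne⟩ := hvw
  set J : Finset ι := Finset.univ.filter fun j => j ≠ i with hJdef
  have hJ : J.Nonempty := by
    by_cases h : i₁ = i
    · exact ⟨i₂, by simp [hJdef]; rintro rfl; exact hi h⟩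
    · exact ⟨i₁, by simp [hJdef, h]⟩
  have memJ : ∀ j, j ∈ J ↔ j ≠ i := fun j => by simp [hJdef]
  set N : ℝ := v i ^ 2 + w i ^ 2 with hN
  have hN0 : 0 < N := by
    obtain ⟨j, hj⟩ := hJ
    have h1 := hne i j (Ne.symm ((memJ j).1 hj))
    rcases eq_or_ne (v i) 0 with h2 | h2
    · rcases eq_or_ne (w i) 0 with h3 | h3
      · exact absurd (by rw [h2, h3]; ring) h1
      · positivity
    · positivity
  set G : ι → ℝ := fun j => (v j * v i + w j * w i) / N with hG
  set D : ι → ℝ := fun j => v i * w j - w i * v j with hD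
  have hD0 : ∀ j ∈ J, D j ≠ 0 := fun j hj => hne i j (Ne.symm ((memJ j).1 hj))
  set α : ι → ℝ := fun j => |D j|⁻¹ with hα
  set β : ι → ℝ := fun j => G j / D j with hβ
  set g : ℝ → (ι → ℝ) → ℝ := fun z h => up J hJ α β z h + up J hJ α β (-z) h with hg
  have hgc : Continuous fun q : ℝ × (ι → ℝ) => g q.1 q.2 := by
    have h1 := up_cont J hJ α β 1
    have h2 := up_cont J hJ α β (-1)
    simp only [one_mul, neg_mul] at h1 h2
    exact h1.add h2
  refine ⟨g, hgc, ?_, ?_, ?_, ?_, ?_⟩
  · have h1 := up_concave J hJ α β 1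
    have h2 := up_concave J hJ α β (-1)
    simp only [one_mul, neg_mul] at h1 h2
    exact h1.add h2
  · intro z h
    simp only [hg, neg_neg]
    exact add_comm _ _
  · intro z h h' H
    simp only [hg]
    rw [up_congr J hJ α β z h h' fun j hj => H j ((memJ j).1 hj),
      up_congr J hJ α β (-z) h h' fun j hj => H j ((memJ j).1 hj)]
  · intro h h0
    have := up_pos J hJ α β h h0 fun j hj => inv_pos.2 (abs_pos.2 (hD0 j hj))
    simp only [hg, neg_zero]
    exact add_pos this this
  · intro h h0
    -- change of variables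
    set f : ℝ × ℝ →ₗ[ℝ] ℝ × ℝ := Matrix.toLin (Module.Basis.finTwoProd ℝ)
      (Module.Basis.finTwoProd ℝ) !![v i / N, -w i; w i / N, v i] with hf
    have hf_app : ∀ q : ℝ × ℝ, f q = (v i / N * q.1 + -w i * q.2, w i / N * q.1 + v i * q.2) := by
      intro q
      rw [hf, Matrix.toLin_finTwoProd]
      simp
    have hdet : LinearMap.det f = 1 := by
      rw [hf, LinearMap.det_toLin, Matrix.det_fin_two_of]
      field_simp
      rw [hN]
      ring
    have hvol : area v w h = (volume (f ⁻¹' {y : ℝ × ℝ | ∀ j, |v j * y.1 + w j * y.2| ≤ h j})).toReal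
        := by
      rw [Measure.addHaar_preimage_linearMap volume (by rw [hdet]; exact one_ne_zero), hdet]
      simp [area]
    rw [hvol]
    have hset : f ⁻¹' {y : ℝ × ℝ | ∀ j, |v j * y.1 + w j * y.2| ≤ h j} =
        {q : ℝ × ℝ | q.1 ∈ Icc (-(h i)) (h i) ∧ q.2 ∈ Icc (-(up J hJ α β (-q.1) h))
          (up J hJ α β q.1 h)} := by
      ext q
      have e1 : ∀ j, v j * (f q).1 + w j * (f q).2 = q.1 * G j + q.2 * D j := by
        intro j
        rw [hf_app]
        simp only [hG, hD]
        field_simp
        ring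
      have e2 : q.1 * G i + q.2 * D i = q.1 := by
        simp only [hG, hD]
        have : (v i * v i + w i * w i) / N = 1 := by
          rw [div_eq_one_iff_eq hN0.ne', hN]
          ring
        rw [this]
        ring
      simp only [mem_preimage, mem_ofPred_eq, e1, mem_Icc]
      constructor
      · intro H
        have H1 := H i
        rw [e2, abs_le] at H1
        refine ⟨H1, ?_, ?_⟩
        · rw [neg_le, le_up]
          intro j hj
          exact ((strip_iff (hD0 j hj)).1 (H j)).2
        · rw [le_up]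
          intro j hj
          exact ((strip_iff (hD0 j hj)).1 (H j)).1
      · rintro ⟨H1, H2, H3⟩ j
        by_cases hj : j = i
        · subst hj
          rw [e2, abs_le]
          exact H1
        · have hj' := (memJ j).2 hj
          rw [neg_le, le_up] at H2
          rw [le_up] at H3
          exact (strip_iff (hD0 j hj')).2 ⟨H3 j hj', H2 j hj'⟩
    rw [hset]
    have hgz : Continuous fun z => g z h :=
      hgc.comp (Continuous.prodMk continuous_id continuous_const)
    have hmeas : MeasurableSet {q : ℝ × ℝ | q.1 ∈ Icc (-(h i)) (h i) ∧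
        q.2 ∈ Icc (-(up J hJ α β (-q.1) h)) (up J hJ α β q.1 h)} := by
      have c1 : Continuous fun q : ℝ × ℝ => up J hJ α β q.1 h := by
        have := (up_cont J hJ α β 1).comp
          (Continuous.prodMk continuous_fst (continuous_const (y := h)) :
            Continuous fun q : ℝ × ℝ => (q.1, h))
        simpa [Function.comp_def] using this
      have c2 : Continuous fun q : ℝ × ℝ => up J hJ α β (-q.1) h := by
        have := (up_cont J hJ α β (-1)).comp
          (Continuous.prodMk continuous_fst (continuous_const (y := h)) :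
            Continuous fun q : ℝ × ℝ => (q.1, h))
        simpa [Function.comp_def] using this
      refine MeasurableSet.inter ?_ ?_
      · exact measurable_fst measurableSet_Icc
      · exact MeasurableSet.inter (measurableSet_le c2.neg.measurable measurable_snd)
          (measurableSet_le measurable_snd c1.measurable)
    rw [Measure.volume_eq_prod, Measure.prod_apply hmeas]
    have hsec : ∀ z : ℝ, volume (Prod.mk z ⁻¹' {q : ℝ × ℝ | q.1 ∈ Icc (-(h i)) (h i) ∧
        q.2 ∈ Icc (-(up J hJ α β (-q.1) h)) (up J hJ α β q.1 h)}) =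
        (Icc (-(h i)) (h i)).indicator (fun z => ENNReal.ofReal (max 0 (g z h))) z := by
      intro z
      by_cases hz : z ∈ Icc (-(h i)) (h i)
      · rw [indicator_of_mem hz]
        have : (Prod.mk z ⁻¹' {q : ℝ × ℝ | q.1 ∈ Icc (-(h i)) (h i) ∧
            q.2 ∈ Icc (-(up J hJ α β (-q.1) h)) (up J hJ α β q.1 h)}) =
            Icc (-(up J hJ α β (-z) h)) (up J hJ α β z h) := by
          ext s
          simp only [mem_preimage, mem_ofPred_eq]
          exact ⟨fun H => H.2, fun H => ⟨hz, H⟩⟩
        rw [this, Real.volume_Icc]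
        have e : up J hJ α β z h - -(up J hJ α β (-z) h) = g z h := by
          simp only [hg]
          ring
        rw [e, max_comm, ENNReal.ofReal_max, ENNReal.ofReal_zero]
        simp
      · rw [indicator_of_notMem hz]
        have : (Prod.mk z ⁻¹' {q : ℝ × ℝ | q.1 ∈ Icc (-(h i)) (h i) ∧
            q.2 ∈ Icc (-(up J hJ α β (-q.1) h)) (up J hJ α β q.1 h)}) = ∅ := by
          ext s
          simp only [mem_preimage, mem_ofPred_eq, mem_empty_iff_false, iff_false]
          exact fun H => hz H.1
        rw [this, measure_empty]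
    simp only [hsec]
    rw [lintegral_indicator measurableSet_Icc]
    have hint : Integrable (fun z => max 0 (g z h)) (volume.restrict (Icc (-(h i)) (h i))) :=
      (continuous_const.max hgz).continuousOn.integrableOn_compact isCompact_Icc
    rw [← ofReal_integral_eq_lintegral_ofReal hint
      (Eventually.of_forall fun z => le_max_left _ _)]
    have hnn : 0 ≤ ∫ z in Icc (-(h i)) (h i), max 0 (g z h) :=
      integral_nonneg fun z => le_max_left 0 (g z h)
    rw [ENNReal.toReal_ofReal hnn,
      intervalIntegral.integral_of_le (by linarith [h0 i]), integral_Icc_eq_integral_Ioc]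

end Pool.Agent.Lib.MP_fa837f_gt.TS.H63
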