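import Pool.Agent.Lib.MP_fa837f_gt.TS.H63.Posc

/-!
# PLC: if the sections of boxes are log-concave then so are the sections of `ℓ_p` balls
-/

set_option autoImplicit false

open MeasureTheory Set Filter Topology Matrix

namespace Pool.Agent.Lib.MP_fa837f_gt.TS.H63

open Pool.Agent.Lib.MP_fa837f_gt Pool.Agent.Lib.MP_fa837f_gt.TS

theorem logConcave_iff {n : ℕ} (F : (Fin n → ℝ) → ℝ) : LogConcave F ↔
    (∀ t, 0 < F t) ∧ ConcaveOn ℝ Set.univ fun t => Real.log (F t) := by
  unfold LogConcave
  constructor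
  · rintro ⟨h1, h2⟩
    refine ⟨h1, convex_univ, ?_⟩
    intro s _ t _ a b ha hb hab
    have hb' : b = 1 - a := by linarith
    subst hb'
    have h3 := h2 s t a ha (by linarith)
    have h4 := Real.log_le_log (mul_pos (Real.rpow_pos_of_pos (h1 s) a)
      (Real.rpow_pos_of_pos (h1 t) (1 - a))) h3
    rw [Real.log_mul (Real.rpow_pos_of_pos (h1 s) a).ne'
      (Real.rpow_pos_of_pos (h1 t) (1 - a)).ne', Real.log_rpow (h1 s), Real.log_rpow (h1 t)] at h4
    exact h4
  · rintro ⟨h1, h2⟩
    refine ⟨h1, fun s t l hl hl' => ?_⟩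
    have h3 := h2.2 (mem_univ s) (mem_univ t) hl (sub_nonneg.2 hl') (by ring)
    simp only [smul_eq_mul] at h3
    rw [← Real.log_le_log_iff (mul_pos (Real.rpow_pos_of_pos (h1 s) l)
      (Real.rpow_pos_of_pos (h1 t) (1 - l))) (h1 _), Real.log_mul
      (Real.rpow_pos_of_pos (h1 s) l).ne' (Real.rpow_pos_of_pos (h1 t) (1 - l)).ne',
      Real.log_rpow (h1 s), Real.log_rpow (h1 t)]
    exact h3

section

variable {n : ℕ} (H : Submodule ℝ (EuclideanSpace ℝ (Fin n)))

/-- Dimension zero. -/
theorem sectionVol_zero (p : ℝ) (hp : 1 ≤ p) (hk : Module.finrank ℝ H = 0) (t : Fin n → ℝ) :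
    sectionVol p H t = 1 := by
  have hp0 : p ≠ 0 := by linarith
  unfold sectionVol
  rw [lebesgueOn_eq H (diagMap t '' lpBall p n) Set.univ]
  · have : IsEmpty (Fin (Module.finrank ℝ H)) := by
      rw [hk]
      infer_instance
    rw [volume_pi, Measure.pi_univ]
    simp
  · intro x
    have hx : x = 0 := by
      have : Subsingleton H := Module.finrank_zero_iff.1 hk
      exact Subsingleton.elim _ _
    subst hx
    simp only [mem_univ, iff_true]
    rw [mem_diag_iff]
    simp [Real.zero_rpow hp0]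

theorem integrand_eq (p : ℝ) (t : Fin n → ℝ) :
    GG (coef H) (p / 2) (fun i => Real.exp (-(p * t i))) =
      ∫ y : Fin (Module.finrank ℝ H) → ℝ,
        Real.exp (-∑ i, |Real.exp (-(t i)) * cofL H y i| ^ p) := by
  unfold GG
  congr 1
  ext y
  congr 2
  refine Finset.sum_congr rfl fun i _ => ?_
  rw [← abs_rpow_eq, abs_mul, Real.mul_rpow (abs_nonneg _) (abs_nonneg _), Real.abs_exp,
    ← Real.exp_mul]
  congr 2
  ring_nf

end

/-- PLC. -/
theorem plc (h1 : BasicStatement) (h2 : MixStatement) (h3 : PrekStatement) : PlcStatement := by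
  intro n H hH p hp
  have hp0 : 0 < p := by linarith
  rw [logConcave_iff] at hH ⊢
  rcases Nat.eq_zero_or_pos (Module.finrank ℝ H) with hk | hk
  · simp only [sectionVol_zero H p hp hk]
    refine ⟨fun _ => one_pos, ?_⟩
    exact concaveOn_const _ convex_univ
  · have hinj := cofL_inj H
    have hVpos : ∀ t, 0 < Vol (cofL H) t := (h1 _ _ (cofL H) hinj).2.1
    have hVconc : ConcaveOn ℝ Set.univ fun t => Real.log (Vol (cofL H) t) := by
      have := hH.2
      simp only [cubeVol_eq] at this
      exact this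
    have hmix := h2 _ n (cofL H) hinj p hp
    obtain ⟨hI, hC⟩ := h3 n (Vol (cofL H)) p hp hVpos hVconc fun t => (hmix t).2.1
    have hΓ : 0 < Real.Gamma (Module.finrank ℝ H / p + 1) := Real.Gamma_pos_of_pos (by positivity)
    have e : ∀ t, sectionVol p H t = (∫ r : Fin n → ℝ, Vol (cofL H) (fun i => t i + r i) *
        ∏ i, (p * Real.exp (p * r i - Real.exp (p * r i)))) /
        Real.Gamma (Module.finrank ℝ H / p + 1) := by
      intro t
      rw [sectionVol_eq H hp hk, integrand_eq, (hmix t).2.2]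
    simp only [e]
    refine ⟨fun t => div_pos (hI t) hΓ, ?_⟩
    have e2 : ∀ t : Fin n → ℝ, Real.log ((∫ r : Fin n → ℝ, Vol (cofL H) (fun i => t i + r i) *
        ∏ i, (p * Real.exp (p * r i - Real.exp (p * r i)))) /
        Real.Gamma (Module.finrank ℝ H / p + 1)) =
        Real.log (∫ r : Fin n → ℝ, Vol (cofL H) (fun i => t i + r i) *
        ∏ i, (p * Real.exp (p * r i - Real.exp (p * r i)))) +
        -Real.log (Real.Gamma (Module.finrank ℝ H / p + 1)) := by
      intro t
      rw [Real.log_div (hI t).ne' hΓ.ne']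
      ring
    simp only [e2]
    exact hC.add_const _

end Pool.Agent.Lib.MP_fa837f_gt.TS.H63
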