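import Pool.Agent.Lib.MP_fa837f_gt.TS.Iface

/-!
# POSC: positivity of `cubeVol`; PERMV: volumes after a permutation of the coordinates
-/

set_option autoImplicit false

open MeasureTheory Set Filter Topology Matrix

namespace Pool.Agent.Lib.MP_fa837f_gt.TS.H63

open Pool.Agent.Lib.MP_fa837f_gt Pool.Agent.Lib.MP_fa837f_gt.TS

section

variable {k : ℕ} {ι : Type} [Fintype ι] (L : (Fin k → ℝ) →ₗ[ℝ] (ι → ℝ))

theorem body_lt_top (hL : Function.Injective L) (t : ι → ℝ) :
    volume {y : Fin k → ℝ | ∀ i, |L y i| ≤ Real.exp (t i)} < ⊤ := by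
  obtain ⟨K, -, hK⟩ := L.exists_antilipschitzWith (LinearMap.ker_eq_bot.2 hL)
  have h1 : Bornology.IsBounded (Icc (fun i => -Real.exp (t i)) fun i => Real.exp (t i) :
      Set (ι → ℝ)) := Metric.isBounded_Icc _ _
  have h2 := hK.isBounded_preimage h1
  refine lt_of_le_of_lt (measure_mono ?_) h2.measure_lt_top
  intro y hy
  refine ⟨fun i => ?_, fun i => ?_⟩
  · exact (abs_le.1 (hy i)).1
  · exact (abs_le.1 (hy i)).2

theorem body_pos (t : ι → ℝ) :
    0 < volume {y : Fin k → ℝ | ∀ i, |L y i| ≤ Real.exp (t i)} := by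
  have hc : Continuous L := L.continuous_of_finiteDimensional
  have h1 : IsOpen {y : Fin k → ℝ | ∀ i, |L y i| < Real.exp (t i)} := by
    have : {y : Fin k → ℝ | ∀ i, |L y i| < Real.exp (t i)} =
        ⋂ i, {y : Fin k → ℝ | |L y i| < Real.exp (t i)} := by
      ext y
      simp
    rw [this]
    refine isOpen_iInter_of_finite fun i => isOpen_lt ?_ continuous_const
    exact ((continuous_apply i).comp hc).abs
  have h2 : {y : Fin k → ℝ | ∀ i, |L y i| < Real.exp (t i)}.Nonempty := by
    refine ⟨0, fun i => ?_⟩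
    rw [map_zero]
    simpa using Real.exp_pos (t i)
  refine lt_of_lt_of_le (h1.measure_pos volume h2) (measure_mono ?_)
  intro y hy i
  exact (hy i).le

end

section

variable {n : ℕ} (H : Submodule ℝ (EuclideanSpace ℝ (Fin n)))

/-- The parametrisation of `H` by an orthonormal basis. -/
noncomputable def cofL : (Fin (Module.finrank ℝ H) → ℝ) →ₗ[ℝ] (Fin n → ℝ) where
  toFun y i := coef H i ⬝ᵥ y
  map_add' y z := by ext i; simp only [Pi.add_apply, dotProduct_add]
  map_smul' r y := by
    ext i; simp only [Pi.smul_apply, dotProduct_smul, smul_eq_mul, RingHom.id_apply]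

theorem cofL_inj : Function.Injective (cofL H) := by
  rw [injective_iff_map_eq_zero]
  intro y hy
  exact coef_span H y fun i => congrFun hy i

theorem cubeVol_eq (t : Fin n → ℝ) : cubeVol H t = Vol (cofL H) t := by
  unfold cubeVol Vol
  congr 1
  refine lebesgueOn_eq H _ _ fun x => ?_
  refine forall_congr' fun i => ?_
  show |(x : EuclideanSpace ℝ (Fin n)) i| ≤ _ ↔
    |coef H i ⬝ᵥ ((stdOrthonormalBasis ℝ H).repr x).ofLp| ≤ _
  rw [coef_dot]

end

/-- POSC. -/
theorem posc : PoscStatement := by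
  intro n H t
  rw [cubeVol_eq]
  exact ENNReal.toReal_pos (body_pos (cofL H) t).ne' (body_lt_top (cofL H) (cofL_inj H) t).ne

/-! ## Permutations -/

section

variable {n : ℕ} (σ : Equiv.Perm (Fin n)) (H : Submodule ℝ (EuclideanSpace ℝ (Fin n)))

/-- The linear map between `permSub σ H` and `H`. -/
noncomputable def permE : permSub σ H ≃ₗ[ℝ] H where
  toFun x := ⟨WithLp.toLp 2 (fun i => x.1 (σ i)), x.2⟩
  map_add' _ _ := rfl
  map_smul' _ _ := rfl
  invFun y := ⟨WithLp.toLp 2 (fun i => y.1 (σ.symm i)), by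
    show WithLp.toLp 2 (fun i => y.1 (σ.symm (σ i))) ∈ H
    simp only [Equiv.symm_apply_apply]
    exact y.2⟩
  left_inv x := by
    ext i
    show x.1 (σ (σ.symm i)) = x.1 i
    rw [Equiv.apply_symm_apply]
  right_inv y := by
    ext i
    show y.1 (σ.symm (σ i)) = y.1 i
    rw [Equiv.symm_apply_apply]

/-- It is an isometry. -/
noncomputable def permI : permSub σ H ≃ₗᵢ[ℝ] H where
  toLinearEquiv := permE σ H
  norm_map' x := by
    show ‖(WithLp.toLp 2 (fun i => x.1 (σ i)) : EuclideanSpace ℝ (Fin n))‖ = ‖x.1‖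
    rw [EuclideanSpace.norm_eq, EuclideanSpace.norm_eq]
    congr 1
    exact Equiv.sum_comp σ fun i => ‖x.1 i‖ ^ 2

end

/-- PERMV. -/
theorem permv : PermvStatement := by
  intro n σ H t
  have m : MeasurePreserving (permI σ H) (lebesgue (permSub σ H)) (lebesgue H) :=
    (permI σ H).measurePreserving
  have e0 : ∀ (K : Submodule ℝ (EuclideanSpace ℝ (Fin n))) (s : Set (EuclideanSpace ℝ (Fin n))),
      lebesgueOn K s = lebesgue K (Subtype.val ⁻¹' s) := by
    intro K s
    unfold lebesgueOn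
    apply MeasurableEmbedding.map_apply
    exact MeasurableEmbedding.subtype_coe (Submodule.closed_of_finiteDimensional K).measurableSet
  unfold cubeVol
  congr 1
  rw [e0, e0, ← m.measure_preimage_emb (permI σ H).toHomeomorph.measurableEmbedding]
  congr 1
  ext x
  show (∀ i, |x.1 i| ≤ Real.exp (t i)) ↔ ∀ i, |x.1 (σ i)| ≤ Real.exp (t (σ i))
  exact (Equiv.forall_congr_right σ (q := fun i => |x.1 i| ≤ Real.exp (t i))).symm

end Pool.Agent.Lib.MP_fa837f_gt.TS.H63
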